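import Pool.Agent.Lib.MP_79d702_lc.Two.Clique

/-!
Circuits with `t` NOT gates and `s` AND / OR gates for the `k`-clique function on `n` vertices:
`2 ^ w ≤ 2 ^ (t + 6) * (s + 1)` as soon as `k` and `(n - k) / 2 ^ t` are at least
`c * w * (log w + 1) ^ c`.
-/

namespace Pool.Agent.Lib.MP_79d702_lc.Old.MonotoneClique

open Pool.Agent.Lib.MP_79d702_lc.Neg Pool.Agent.Lib.MP_79d702_lc.Two

theorem result : ∃ c : ℕ, ∀ (n k w : ℕ) (C : Circuit (n * n)),
    (∀ x, C.eval x = true ↔ HasClique n k x) → 1 ≤ w → c * w * (Nat.log 2 w + 1) ^ c ≤ k →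
    k + c * 2 ^ C.nots * w * (Nat.log 2 w + 1) ^ c ≤ n →
    2 ^ w ≤ 2 ^ (C.nots + 6) * (C.size + 1) :=
  clique_final

end Pool.Agent.Lib.MP_79d702_lc.Old.MonotoneClique
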